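import Mathlib
import Pool.Agent.V11146.Bal

set_option autoImplicit false

namespace Pool.Agent.Results.MP_ce3f89_co.LogOrder

open Finset SimpleGraph Filter Topology Pool.Agent.V11146.Bal

/-- `a(n)` is the largest size of a family of graphs on `[n]` in which `A \ A'` and `A' \ A` are
always isomorphic.  For all `n`,
`2 ^ ⌊(n - 1)² / 4⌋ ≤ a(n) ≤ n! * 2 ^ ⌊n (n - 1) / 4⌋`, so `log₂ a(n) = n² / 4 + O(n log n)` and
`log₂ a(n) / n² → 1/4`. -/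
theorem result :
    (∀ n : ℕ, IsGreatest {k : ℕ | ∃ F : Finset (SimpleGraph (Fin n)),
      (∀ A ∈ F, ∀ A' ∈ F, Nonempty ((A \ A') ≃g (A' \ A))) ∧ F.card = k} (a n)) ∧
    (∀ n : ℕ, 2 ^ ((n - 1) ^ 2 / 4) ≤ a n ∧ a n ≤ n.factorial * 2 ^ (n.choose 2 / 2)) ∧
    (∀ n : ℕ, 1 ≤ n → ((n : ℝ) - 1) ^ 2 / 4 - 1 ≤ Real.logb 2 (a n) ∧
      Real.logb 2 (a n) ≤ n * Real.logb 2 n + (n : ℝ) * ((n : ℝ) - 1) / 4) ∧
    Tendsto (fun n : ℕ => Real.logb 2 (a n) / (n : ℝ) ^ 2) atTop (𝓝 (1 / 4)) := by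
  refine ⟨fun n => ?_, fun n => ⟨lower n, upper n⟩, fun n hn => ⟨log_lower n hn, log_upper n hn⟩,
    limit⟩
  constructor
  · exact Nat.sSup_mem ⟨0, ∅, fun A hA => absurd hA (Finset.notMem_empty _), rfl⟩ (bdd n)
  · intro k hk
    exact le_csSup (bdd n) hk

end Pool.Agent.Results.MP_ce3f89_co.LogOrder
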